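/-
KEW (MP_7b949a_ag), block (k), row NA4: the integral closure of `B_x` is a localisation of the
integral closure of `P`.
-/
import Pool.Agent.H92.KST.TargetsX

set_option autoImplicit false
universe u

namespace Pool.Agent.H61.KST

open Pool.Agent.H92.KST

theorem pf_NA4 : T_NA4.{u} := by
  intro P F _ _ _ B x hx O hO hr
  classical
  obtain ⟨r, hrx, hri, hrb⟩ := hr
  have hBO : ∀ b : B, (b : F) ∈ O := fun b => (hO b).mpr
    ⟨1, fun h => hx.ne_top ((Ideal.eq_top_iff_one x).mpr h), by
      rw [OneMemClass.coe_one, one_mul]; exact b.2⟩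
  have hne : ∀ s : B, s ∉ x → (s : F) ≠ 0 := by
    intro s hs h
    apply hs
    have h2 : s = 0 := Subtype.ext h
    rw [h2]; exact x.zero_mem
  have hinv : ∀ s : B, s ∉ x → (s : F)⁻¹ ∈ O := fun s hs => (hO _).mpr
    ⟨s, hs, by rw [mul_inv_cancel₀ (hne s hs)]; exact B.one_mem⟩
  have h1 : ∀ c ∈ integralClosure P F, c ∈ integralClosure O F := by
    intro c hc
    obtain ⟨p, hp, hp0⟩ := (hc : IsIntegral P c)
    let ι : P →+* O := (algebraMap P F).codRestrict O (fun a => hBO (algebraMap P B a))
    refine (⟨p.map ι, hp.map ι, ?_⟩ : IsIntegral O c)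
    rw [Polynomial.eval₂_map]
    exact hp0
  refine ⟨h1, fun f => ⟨fun hf => ?_, ?_⟩⟩
  · -- the ring of integral elements of `B`
    let P' : Subalgebra P B := integralClosure P B
    let j : P' →+* O := ((B.val.toRingHom.comp P'.val.toRingHom)).codRestrict O
      (fun a => hBO a.1)
    have hj : ∀ a : P', ((j a : O) : F) = ((a : B) : F) := fun a => rfl
    let : Algebra P' O := j.toAlgebra
    have hst : IsScalarTower P' O F := IsScalarTower.of_algebraMap_eq (fun a => rfl)
    let M : Submonoid P' := (x.comap (algebraMap P' B)).primeCompl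
    have hM : ∀ m : P', m ∈ M ↔ (m : B) ∉ x := fun m => Iff.rfl
    have hrk : ∀ k : ℕ, r ^ k ∉ x := fun k h => hrx (hx.mem_of_pow_mem k h)
    have hup : ∀ (b : B) (k l : ℕ), IsIntegral P (r ^ k * b) → IsIntegral P (r ^ (l + k) * b) := by
      intro b k l h
      rw [pow_add, mul_assoc]
      exact (hri.pow l).mul h
    have hloc : IsLocalization M O := by
      refine ⟨?_, ?_, ?_⟩
      · rintro ⟨m, hm⟩
        have hm' : (m : B) ∉ x := hm
        refine IsUnit.of_mul_eq_one (⟨((m : B) : F)⁻¹, hinv _ hm'⟩ : O) ?_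
        apply Subtype.ext
        exact mul_inv_cancel₀ (hne _ hm')
      · intro z
        obtain ⟨s, hs, hsz⟩ := (hO z).mp z.2
        obtain ⟨k, hk⟩ := hrb s
        obtain ⟨l, hl⟩ := hrb ⟨(s : F) * z, hsz⟩
        have hk' := hup s k l hk
        have hl' := hup _ l k hl
        rw [add_comm k l] at hl'
        refine ⟨(⟨r ^ (l + k) * ⟨(s : F) * z, hsz⟩, hl'⟩,
          ⟨⟨r ^ (l + k) * s, hk'⟩, ?_⟩), ?_⟩
        · intro h
          rcases hx.mem_or_mem h with h | h
          · exact hrk _ h
          · exact hs h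
        · apply Subtype.ext
          show (z : F) * ((r : F) ^ (l + k) * (s : F)) = (r : F) ^ (l + k) * ((s : F) * z)
          ring
      · intro a b hab
        refine ⟨1, ?_⟩
        have h3 : ((a : B) : F) = ((b : B) : F) := congrArg (fun t : O => (t : F)) hab
        rw [Subtype.ext (Subtype.ext h3) (a1 := a) (a2 := b)]
    obtain ⟨m, hm⟩ := IsIntegral.exists_multiple_integral_of_isLocalization M f
      (hf : IsIntegral O f)
    refine ⟨(m : P'), m.2, (m : P').2, ?_⟩
    have h4 : IsIntegral P (m • f) := by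
      have : Algebra.IsIntegral P P' := inferInstance
      exact isIntegral_trans (m • f) hm
    exact h4
  · rintro ⟨s, hs, -, hsf⟩
    have h5 : IsIntegral O ((s : F) * f) := h1 _ hsf
    have h6 : IsIntegral O ((algebraMap O F ⟨(s : F)⁻¹, hinv s hs⟩) * ((s : F) * f)) :=
      isIntegral_algebraMap.mul h5
    have h7 : (algebraMap O F ⟨(s : F)⁻¹, hinv s hs⟩) * ((s : F) * f) = f := by
      show (s : F)⁻¹ * ((s : F) * f) = f
      rw [← mul_assoc, inv_mul_cancel₀ (hne s hs), one_mul]
    rw [h7] at h6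
    exact h6

end Pool.Agent.H61.KST
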